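import Mathlib

set_option autoImplicit false

namespace Pool.Agent.H.MP_77d395_lc

open Set Filter Function Cardinal Ordinal

abbrev I := (ω₁ : Ordinal.{0}).ToType

theorem mkI : #I = ℵ₁ := by simp

theorem cI (a : I) : (Iic a).Countable := le_aleph0_iff_set_countable.1 (lt_aleph_one_iff.1
  (mkI ▸ mk_Iic_lt a (by simp) (mkI ▸ aleph0_le_aleph 1)))

theorem unc {s : Set I} (h : s.Countable) : ∃ b, b ∉ s := (ne_univ_iff_exists_notMem _).1 fun e =>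
  (le_aleph0_iff_set_countable.2 (e ▸ h)).not_gt (by simp)

instance : Nonempty I := let ⟨b, _⟩ := unc countable_empty; ⟨b⟩

theorem rec1 {T K : Type} [Nonempty T] [Nonempty K] (hK : #K ≤ ℵ₁) (le : T → T → Prop)
    (hr : ∀ a, le a a) (ht : ∀ a b c, le a b → le b c → le a c) (G : T → K → T → Prop)
    (step : ∀ S : ℕ → T, (∀ m n, m ≤ n → le (S m) (S n)) → ∀ k,
      ∃ W, (∀ n, le (S n) W) ∧ G (S 0) k W) :
    ∃ U : I → T, (∀ a b, a ≤ b → le (U a) (U b)) ∧ ∀ a k, ∃ b, G (U a) k (U b) := by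
  obtain ⟨g⟩ := (le_def (I × I × K) I).1 (by
    simpa [mkI] using (mul_le_mul' le_rfl (mul_le_mul' le_rfl hK)).trans (by simp : ℵ₁ * _ ≤ ℵ₁))
  let τ : I → I × K := fun a => (invFun g a).2
  let P : ∀ a, (∀ b, b < a → T) → T → Prop := fun a f W =>
    (∀ b h, le (f b h) W) ∧ ∀ h : (τ a).1 < a, G (f _ h) (τ a).2 W
  let U : I → T := wellFounded_lt.fix fun a ih => Classical.epsilon (P a ih)
  have h1 : ∀ a, P a (fun b _ => U b) (U a) := fun a => by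
    refine wellFounded_lt.induction (C := fun a => P a (fun b _ => U b) (U a)) a fun a ih => ?_
    rw [show U a = _ from wellFounded_lt.fix_eq _ a]
    apply Classical.epsilon_spec
    have h2 : ∀ c b, c ≤ b → b < a → le (U c) (U b) := fun c b h hb =>
      h.eq_or_lt.elim (· ▸ hr _) ((ih b hb).1 c)
    rcases (Iio a).eq_empty_or_nonempty with e | ⟨c, hc⟩
    · exact ⟨Classical.arbitrary T, fun b h => (e.subset (show b ∈ Iio a from h)).elim,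
        fun h => (e.subset (show _ ∈ Iio a from h)).elim⟩
    obtain ⟨e, he⟩ := ((cI a).mono Iio_subset_Iic_self).exists_eq_range ⟨c, hc⟩
    let β : ℕ → I := Nat.rec (if (τ a).1 < a then (τ a).1 else c) fun n x => max x (e n)
    have b1 : ∀ n, β n < a := fun n => by
      induction n with
      | zero => show ite _ _ _ < a; split_ifs <;> assumption
      | succ n ih => exact max_lt ih (show e n ∈ Iio a from he ▸ mem_range_self n)
    obtain ⟨W, w1, w2⟩ := step (fun n => U (β n)) (fun m n h => h2 _ _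
      (monotone_nat_of_le_succ (f := β) (fun n => le_max_left _ _) h) (b1 n)) (τ a).2
    refine ⟨W, fun b h => ?_, fun h => by rwa [show β 0 = _ from if_pos h] at w2⟩
    obtain ⟨n, rfl⟩ : b ∈ range e := he ▸ h
    exact ht _ _ _ (h2 _ _ (le_max_right _ _) (b1 (n + 1))) (w1 (n + 1))
  refine ⟨U, fun a b h => h.eq_or_lt.elim (· ▸ hr _) ((h1 b).1 a), fun a k => ?_⟩
  obtain ⟨c, hc⟩ := unc ((cI a).preimage (f := fun c => g (c, a, k)) fun _ _ h =>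
    congrArg Prod.fst (g.injective h))
  have : τ (g (c, a, k)) = (a, k) := congrArg Prod.snd (leftInverse_invFun g.injective _)
  have h3 := (h1 (g (c, a, k))).2
  simp only [this] at h3
  exact ⟨_, h3 (not_le.1 hc)⟩

theorem gen {K : Type} [Nonempty K] (hK : #K ≤ ℵ₁) (D : K → Set ℕ → Prop)
    (hD : ∀ k A, A.Infinite → ∃ B ⊆ A, B.Infinite ∧ D k B) :
    ∃ V : Ultrafilter ℕ, (V : Filter ℕ) ≤ atTop ∧ ∀ k, ∃ B ∈ V, D k B := by
  have : Nonempty {A : Set ℕ // A.Infinite} := ⟨⟨_, infinite_univ⟩⟩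
  obtain ⟨U, u1, u2⟩ := rec1 (T := {A : Set ℕ // A.Infinite}) hK (fun A B => (B.1 \ A.1).Finite)
    (by simp) (fun A B C h1 h2 => (h1.union h2).subset fun x hx => by
      by_cases h : x ∈ B.1 <;> simp_all) (fun _ k B => D k B.1) fun S hS k => by
      have : ∀ n, ∃ x ∈ (S n).1 \ ⋃ m ∈ Iic n, (S n).1 \ (S m).1, n < x := fun n =>
        ((S n).2.sdiff ((finite_Iic n).biUnion fun m h => hS m n h)).exists_gt n
      choose x x1 x2 using this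
      obtain ⟨B, b1, b2, b3⟩ := hD k (range x) (infinite_of_forall_exists_gt fun n =>
        ⟨_, ⟨n, rfl⟩, x2 n⟩)
      refine ⟨⟨B, b2⟩, fun m => ((finite_Iio m).image x).subset fun y hy => ?_, b3⟩
      obtain ⟨n, rfl⟩ := b1 hy.1
      exact ⟨n, show n < m from not_le.1 fun h => (x1 n).2 (mem_biUnion h ⟨(x1 n).1, hy.2⟩), rfl⟩
  have := iInf_neBot_of_directed (f := fun a => cofinite ⊓ 𝓟 (U a).1) (Antitone.directed_ge
    fun a b h => le_inf inf_le_left (le_principal_iff.2 (mem_inf_principal.2 (mem_cofinite.2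
      ((u1 a b h).subset fun x hx => by simpa using hx))))) fun a => (U a).2.cofinite_inf_principal_neBot
  obtain ⟨V, hV⟩ := Ultrafilter.exists_le (⨅ a, cofinite ⊓ 𝓟 (U a).1)
  obtain ⟨a⟩ : Nonempty I := inferInstance
  refine ⟨V, Nat.cofinite_eq_atTop ▸ (hV.trans (iInf_le _ a)).trans inf_le_left, fun k => ?_⟩
  obtain ⟨b, hb⟩ := u2 a k
  exact ⟨_, le_principal_iff.1 ((hV.trans (iInf_le _ b)).trans inf_le_right), hb⟩

theorem mb {D : Ultrafilter ℕ} {x : ℕ → Ultrafilter ℕ} {s : Set ℕ} :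
    s ∈ D.bind x ↔ {n | s ∈ x n} ∈ D := mem_bind'

theorem um {D : Ultrafilter ℕ} : Set.univ ∈ D := univ_mem

theorem ex {x y : Ultrafilter ℕ} (h : x ≠ y) : ∃ s ∈ x, s ∉ y := by
  by_contra! c
  exact h (Ultrafilter.eq_of_le c).symm

theorem sep0 (x y : ℕ → Ultrafilter ℕ) (D : Ultrafilter ℕ) (hD : (D : Filter ℕ) ≤ atTop)
    (e : D.bind x = D.bind y) (A : Set ℕ) (hA : A ∈ D)
    (h : ∀ n ∈ A, x n ≠ y n ∧ x n ≠ D.bind x) : ∃ C, {n ∈ A | C ∈ x n ∧ C ∉ y n}.Infinite := by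
  obtain ⟨z, hz⟩ : ∃ z, z = D.bind x := ⟨_, rfl⟩
  have : ∀ n, ∃ P Q : Set ℕ, P ∪ Q ∉ z ∧ Disjoint P Q ∧
      (n ∈ A → P ∈ x n ∧ (Q ∈ y n ∨ y n = z)) := fun n => by
    by_cases hn : n ∈ A
    · obtain ⟨s, s1, s2⟩ := ex (h n hn).1
      obtain ⟨t, t1, t2⟩ := ex (hz ▸ (h n hn).2)
      have t3 : s ∩ t ∉ z := fun c => t2 (mem_of_superset c inter_subset_right)
      by_cases c : y n = z
      · exact ⟨s ∩ t, ∅, by simpa using t3, by simp, fun _ => ⟨inter_mem s1 t1, .inr c⟩⟩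
      obtain ⟨u, u1, u2⟩ := ex c
      exact ⟨s ∩ t, u \ s, fun c => (Ultrafilter.union_mem_iff.1 c).elim t3 fun c =>
        u2 (mem_of_superset c sdiff_subset), disjoint_left.2 fun _ a b => b.2 a.1, fun _ =>
        ⟨inter_mem s1 t1, .inl (inter_mem u1 (Ultrafilter.compl_mem_iff_notMem.2 s2))⟩⟩
    · exact ⟨∅, ∅, by simp, by simp, fun c => (hn c).elim⟩
  choose P Q p1 p2 p3 using this
  have : ∀ p : {R : Set ℕ // R ∉ z} × ℕ, ∃ n, p.2 < n ∧ n ∈ A ∧ p.1.1ᶜ ∈ x n ∧ p.1.1ᶜ ∈ y n :=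
    fun p => by
    have c := Ultrafilter.compl_mem_iff_notMem.2 p.1.2
    exact D.nonempty_of_mem (inter_mem (hD (eventually_gt_atTop p.2)) (inter_mem hA
      (inter_mem (mb.1 (hz ▸ c)) (mb.1 (e ▸ hz ▸ c)))))
  choose N n1 n2 n3 n4 using this
  let s : ℕ → {R : Set ℕ // R ∉ z} × ℕ := Nat.rec (⟨∅, z.empty_notMem⟩, 0) fun _ p =>
    (⟨p.1.1 ∪ (P (N p) ∪ Q (N p)), fun c => (Ultrafilter.union_mem_iff.1 c).elim p.1.2 (p1 _)⟩, N p)
  have s1 : Monotone fun k => (s k).1.1 := monotone_nat_of_le_succ fun k => subset_union_left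
  have s2 : StrictMono fun k => N (s k) := strictMono_nat_of_lt_succ fun k => n1 (s (k + 1))
  let C : ℕ → Set ℕ := fun i => ⋃ k, P (N (s (2 * k + i))) \ (s (2 * k + i)).1.1
  have s3 : ∀ j k, j ≠ k → ∀ t ∈ P (N (s j)) \ (s j).1.1,
      t ∉ (P (N (s k)) ∪ Q (N (s k))) \ (s k).1.1 := fun j k c t h1 h2 => by
    rcases lt_or_gt_of_ne c with c | c
    · exact h2.2 (s1 (Nat.succ_le_of_lt c) (.inr (.inl h1.1)))
    · exact h1.2 (s1 (Nat.succ_le_of_lt c) (.inr h2.1))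
  have : ∃ i, C i ∉ z := by
    by_contra! c
    obtain ⟨t, h1, h2⟩ := z.nonempty_of_mem (inter_mem (c 0) (c 1))
    obtain ⟨j, h1⟩ := mem_iUnion.1 h1
    obtain ⟨k, h2⟩ := mem_iUnion.1 h2
    exact s3 (2 * j + 0) (2 * k + 1) (by omega) t h1 ⟨.inl h2.1, h2.2⟩
  obtain ⟨i, hi⟩ := this
  refine ⟨C i, infinite_of_injective_forall_mem (f := fun k => N (s (2 * k + i)))
    (fun a b c => by have := s2.injective c; omega) fun k => ⟨n2 _, mem_of_superset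
      (inter_mem (p3 _ (n2 _)).1 (n3 _)) (subset_iUnion_of_subset k Subset.rfl), fun c => ?_⟩⟩
  rcases (p3 _ (n2 (s (2 * k + i)))).2 with d | d
  · obtain ⟨t, ⟨h1, h2⟩, h3⟩ := Ultrafilter.nonempty_of_mem (inter_mem (inter_mem d (n4 _)) c)
    obtain ⟨j, h3⟩ := mem_iUnion.1 h3
    by_cases c : j = k
    · exact disjoint_left.1 (p2 _) (c ▸ h3).1 h1
    · exact s3 _ _ (by omega) t h3 ⟨.inr h1, h2⟩
  · exact hi (d ▸ c)

theorem sep (x y : ℕ → Ultrafilter ℕ) (A : Set ℕ) (hA : A.Infinite) :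
    ∃ B ⊆ A, B.Infinite ∧ ((∀ n ∈ B, x n = y n) ∨ ∃ C, ∀ n ∈ B, C ∈ x n ∧ C ∉ y n) := by
  by_cases c : {n ∈ A | x n = y n}.Infinite
  · exact ⟨_, sep_subset _ _, c, .inl fun n h => h.2⟩
  suffices ∃ C, {n ∈ A | C ∈ x n ∧ C ∉ y n}.Infinite from
    let ⟨C, h⟩ := this; ⟨_, sep_subset _ _, h, .inr ⟨C, fun n h => h.2⟩⟩
  have := (hA.sdiff (not_infinite.1 c)).cofinite_inf_principal_neBot
  obtain ⟨D, hD⟩ := Ultrafilter.exists_le (cofinite ⊓ 𝓟 (A \ {n ∈ A | x n = y n}))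
  have d1 : (D : Filter ℕ) ≤ atTop := Nat.cofinite_eq_atTop ▸ hD.trans inf_le_left
  have d2 := le_principal_iff.1 (hD.trans inf_le_right)
  have inf : ∀ {s : Set ℕ}, s ∈ D → s.Infinite := fun h => infinite_of_forall_exists_gt fun n =>
    D.nonempty_of_mem (inter_mem h (d1 (eventually_gt_atTop n)))
  by_cases e : D.bind x = D.bind y
  · rcases D.mem_or_compl_mem {n | x n = D.bind x} with h | h
    · obtain ⟨C, hC⟩ := sep0 y x D d1 e.symm _ (inter_mem d2 h) fun n h =>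
        ⟨fun c => h.1.2 ⟨h.1.1, c.symm⟩, fun c => h.1.2 ⟨h.1.1, h.2.trans (e.trans c.symm)⟩⟩
      exact ⟨Cᶜ, hC.mono fun n h => ⟨h.1.1.1, Ultrafilter.compl_mem_iff_notMem.2 h.2.2,
        Ultrafilter.compl_notMem_iff.2 h.2.1⟩⟩
    · obtain ⟨C, hC⟩ := sep0 x y D d1 e _ (inter_mem d2 h) fun n h =>
        ⟨fun c => h.1.2 ⟨h.1.1, c⟩, h.2⟩
      exact ⟨C, hC.mono fun n h => ⟨h.1.1.1, h.2⟩⟩
  · obtain ⟨C, h1, h2⟩ := ex e
    exact ⟨C, (inf (inter_mem d2 (inter_mem (mb.1 h1) (Ultrafilter.compl_mem_iff_notMem.2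
      (mb.not.1 h2))))).mono fun n h => ⟨h.1.1, h.2⟩⟩

def Haus (U : Ultrafilter ℕ) : Prop := ∀ f g : ℕ → ℕ, U.map f = U.map g → {n | f n = g n} ∈ U

theorem main (hCH : continuum.{0} = ℵ₁) : ∃ Y : Set (Ultrafilter ℕ), (∀ n, pure n ∈ Y) ∧
    (∀ f : ℕ → ℕ, ∀ U ∈ Y, U.map f ∈ Y) ∧ (∀ U ∈ Y, Haus U) ∧ (∀ U ∈ Y, ∀ V ∈ Y, ∃ W ∈ Y,
      W.map (·.unpair.1) = U ∧ W.map (·.unpair.2) = V) ∧
    ∀ u : ℕ → Ultrafilter ℕ, (∀ n, u n ∈ Y) → ∃ V : Ultrafilter ℕ, ↑V ≤ (atTop : Filter ℕ) ∧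
      V.bind u ∈ Y := by
  have : Nonempty {U // Haus U} := ⟨⟨pure 0, fun f g h => Ultrafilter.pure_injective h⟩⟩
  obtain ⟨U, u1, u2⟩ := rec1 (T := {U // Haus U}) (K := ℕ → ℕ → ℕ) (by simp [← hCH])
    (fun U V => ∃ p, V.1.map p = U.1) (fun _ => ⟨id, rfl⟩)
    (fun _ _ _ ⟨p, hp⟩ ⟨q, hq⟩ => ⟨p ∘ q, hp ▸ hq ▸ rfl⟩) (fun U k W => ∃ h, ∃ V : Ultrafilter ℕ,
      ↑V ≤ (atTop : Filter ℕ) ∧ W.1.map h = V.bind fun n => U.1.map (k n)) fun S hS k => by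
    obtain ⟨V, v1, v2⟩ := gen (K := (ℕ → ℕ) × (ℕ → ℕ)) (by simp [← hCH]) _ fun k =>
      sep (fun n => ((S n).1.map n.pair).map k.1) fun n => ((S n).1.map n.pair).map k.2
    choose! π hπ using hS
    have key : ∀ m (F : ℕ → ℕ → ℕ), (V.bind fun n => (S n).1.map n.pair).map
        (fun t => F t.unpair.1 (π m t.unpair.1 t.unpair.2)) =
        V.bind fun n => (S m).1.map (F n) := fun m F => Ultrafilter.ext fun s => by
      simp only [Ultrafilter.mem_map, mb]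
      refine eventually_congr (mem_of_superset (v1 (eventually_ge_atTop m)) fun n h => ?_)
      simp [← hπ m n h, preimage]
    refine ⟨⟨V.bind fun n => (S n).1.map n.pair, fun f g h => ?_⟩, fun m => ⟨_,
      (key m fun _ => id).trans (Ultrafilter.ext fun s => by
      by_cases h : s ∈ (S m).1 <;> simp [mb, h, um])⟩, _, V, v1, key 0 k⟩
    obtain ⟨B, b1, b2 | ⟨C, b2⟩⟩ := v2 (f, g)
    · exact mb.2 (mem_of_superset b1 fun n h => (S n).2 _ _ (b2 n h))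
    · have : C ∈ (V.bind fun n => (S n).1.map n.pair).map f :=
        mb.2 (mem_of_superset b1 fun n h => (b2 n h).1)
      obtain ⟨n, h1, h2⟩ := V.nonempty_of_mem (inter_mem b1 (mb.1 (h ▸ this :)))
      exact ((b2 n h1).2 h2).elim
  obtain ⟨a₀⟩ : Nonempty I := inferInstance
  refine ⟨{W | ∃ a f, (U a).1.map f = W}, fun n => ⟨a₀, fun _ => n, Ultrafilter.ext fun s => ?_⟩,
    fun f _ ⟨a, g, h⟩ => ⟨a, f ∘ g, h ▸ rfl⟩, fun _ ⟨a, h, e⟩ f g c => ?_,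
    fun _ ⟨a, f, h1⟩ _ ⟨b, g, h2⟩ => ?_, fun u hu => ?_⟩
  · by_cases h : n ∈ s <;> simp [preimage, h, um]
  · subst e; exact (U a).2 _ _ c
  · obtain ⟨p, hp⟩ := u1 a _ (le_max_left a b)
    obtain ⟨q, hq⟩ := u1 b _ (le_max_right a b)
    refine ⟨_, ⟨max a b, fun t => (f (p t)).pair (g (q t)), rfl⟩, ?_, ?_⟩
    · simp [← h1, ← hp, Ultrafilter.map_map, comp_def]
    · simp [← h2, ← hq, Ultrafilter.map_map, comp_def]
  · choose a f h using hu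
    obtain ⟨b, hb⟩ := unc (countable_iUnion fun n => cI (a n))
    choose p hp using fun n => u1 (a n) b (not_le.1 fun c => hb (mem_iUnion.2 ⟨n, c⟩)).le
    obtain ⟨c, g, V, v1, v2⟩ := u2 b fun n => f n ∘ p n
    exact ⟨V, v1, c, g, v2.trans (congrArg _ (funext fun n => h n ▸ hp n ▸ rfl))⟩

theorem cc {Y : Set (Ultrafilter ℕ)} (h : ∀ u : ℕ → Ultrafilter ℕ, (∀ n, u n ∈ Y) →
    ∃ V : Ultrafilter ℕ, ↑V ≤ (atTop : Filter ℕ) ∧ V.bind u ∈ Y) : CountablyCompactSpace Y := by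
  refine ⟨.of_seq_clusterPt fun x _ => ?_⟩
  obtain ⟨V, v1, v2⟩ := h (fun n => x n) fun n => (x n).2
  refine ⟨⟨_, v2⟩, trivial, (Tendsto.mapClusterPt (F := V) ?_).mono v1⟩
  exact tendsto_subtype_rng.2 ((ultrafilterBasis_is_basis.nhds_hasBasis).tendsto_right_iff.2
    fun _ ⟨⟨s, e⟩, h⟩ => by subst e; exact mb.1 h)

theorem np {Y : Set (Ultrafilter ℕ)} (h0 : ∀ n, pure n ∈ Y) (h : ∀ u : ℕ → Ultrafilter ℕ,
    (∀ n, u n ∈ Y) → ∃ V : Ultrafilter ℕ, ↑V ≤ (atTop : Filter ℕ) ∧ V.bind u ∈ Y) :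
    ∃ U ∈ Y, ∀ n, pure n ≠ U := by
  obtain ⟨V, v1, v2⟩ := h pure h0
  refine ⟨_, v2, fun n e => ?_⟩
  have : {m | n < m} ∈ V.bind pure := mb.2 (v1 (eventually_gt_atTop n))
  simp [← e] at this

end Pool.Agent.H.MP_77d395_lc
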